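import Pool.Agent.N936.TC.Stm

/-!
# TC/HOMEO (helper530): the digit-flip maps are homeomorphisms
-/

namespace Pool.Agent.N530.TC

open Set Topology Pool.Agent.N936.TC

/-- the inverse of the digit-flip map -/
private def inv (typ : ℕ → Bool) (wd : ℕ → ℕ → Bool) (i : Bool) (y : Q) (n : ℕ) : Bool :=
  if typ n = i ∧ ∀ k : Fin n, inv typ wd i y k.1 = wd n k.1 then !(y n) else y n
termination_by n
decreasing_by all_goals exact Fin.is_lt _

private theorem inv_eq (typ : ℕ → Bool) (wd : ℕ → ℕ → Bool) (i : Bool) (y : Q) (n : ℕ) :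
    inv typ wd i y n = if typ n = i ∧ ∀ k < n, inv typ wd i y k = wd n k then !(y n) else y n := by
  rw [inv]
  have h : (∀ k : Fin n, inv typ wd i y k.1 = wd n k.1) ↔ ∀ k < n, inv typ wd i y k = wd n k :=
    ⟨fun h k hk => h ⟨k, hk⟩, fun h k => h k.1 k.2⟩
  simp only [h]

private theorem sgf_surj (typ : ℕ → Bool) (wd : ℕ → ℕ → Bool) (i : Bool) :
    Function.Surjective (sgf typ wd i) := by
  intro y
  refine ⟨inv typ wd i y, ?_⟩
  funext n
  unfold sgf
  by_cases h : typ n = i ∧ ∀ k < n, inv typ wd i y k = wd n k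
  · rw [if_pos h, inv_eq, if_pos h, Bool.not_not]
  · rw [if_neg h, inv_eq, if_neg h]

private theorem sgf_inj (typ : ℕ → Bool) (wd : ℕ → ℕ → Bool) (i : Bool) :
    Function.Injective (sgf typ wd i) := by
  intro x y hxy
  funext n
  induction n using Nat.strong_induction_on with
  | _ n ih =>
    have h1 := congrFun hxy n
    unfold sgf at h1
    have h2 : (typ n = i ∧ ∀ k < n, x k = wd n k) ↔ (typ n = i ∧ ∀ k < n, y k = wd n k) := by
      constructor
      · rintro ⟨h3, h4⟩
        exact ⟨h3, fun k hk => by rw [← ih k hk]; exact h4 k hk⟩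
      · rintro ⟨h3, h4⟩
        exact ⟨h3, fun k hk => by rw [ih k hk]; exact h4 k hk⟩
    by_cases h : typ n = i ∧ ∀ k < n, x k = wd n k
    · rw [if_pos h, if_pos (h2.1 h)] at h1
      exact Bool.not_inj h1
    · rw [if_neg h, if_neg (fun h5 => h (h2.2 h5))] at h1
      exact h1

private theorem sgf_cont (typ : ℕ → Bool) (wd : ℕ → ℕ → Bool) (i : Bool) :
    Continuous (sgf typ wd i) := by
  refine continuous_pi fun n => ?_
  have hcl : IsClopen {x : Q | typ n = i ∧ ∀ k < n, x k = wd n k} := by
    by_cases h : typ n = i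
    · have e : {x : Q | typ n = i ∧ ∀ k < n, x k = wd n k} =
          ⋂ k ∈ Finset.range n, {x : Q | x k = wd n k} := by
        ext x
        simp [h]
      rw [e]
      refine isClopen_biInter_finset fun k _ => ?_
      exact (isClopen_discrete {wd n k}).preimage (continuous_apply k)
    · have e : {x : Q | typ n = i ∧ ∀ k < n, x k = wd n k} = ∅ := by
        ext x
        simp [h]
      rw [e]
      exact isClopen_empty
  have h1 : Continuous fun x : Q => !(x n) :=
    (continuous_of_discreteTopology (f := fun b : Bool => !b)).comp (continuous_apply n)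
  have h2 : Continuous fun x : Q => x n := continuous_apply n
  unfold sgf
  refine Continuous.if ?_ h1 h2
  intro a ha
  rw [hcl.frontier_eq] at ha
  exact absurd ha (Set.notMem_empty _)

theorem t_HOMEO : Pool.Agent.N936.TC.S_HOMEO := by
  intro typ wd
  refine ⟨fun i => Continuous.homeoOfEquivCompactToT2
    (f := Equiv.ofBijective (sgf typ wd i) ⟨sgf_inj typ wd i, sgf_surj typ wd i⟩)
    (sgf_cont typ wd i), fun i x => rfl⟩

end Pool.Agent.N530.TC
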